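import Mathlib

set_option autoImplicit false

namespace Pool.Agent.H.MP_77f213_al

section cp
variable {A : Type} [DecidableEq A]

def wt (α : A → ℝ) (l : List A) : ℝ := (l.map α).sum

def cp (α : A → ℝ) : List A → List A → ℝ
  | i :: u, j :: w => if i = j then α i + cp α u w else 0
  | _, _ => 0

variable {α : A → ℝ}

omit [DecidableEq A] in
@[simp] lemma wt_nil : wt α [] = 0 := rfl
omit [DecidableEq A] in
@[simp] lemma wt_cons (i : A) (l : List A) : wt α (i :: l) = α i + wt α l := by simp [wt]
omit [DecidableEq A] in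
@[simp] lemma wt_append (u l : List A) : wt α (u ++ l) = wt α u + wt α l := by simp [wt]
@[simp] lemma cp_nil (l : List A) : cp α [] l = 0 := by simp [cp]
@[simp] lemma cp_nil' (l : List A) : cp α l [] = 0 := by cases l <;> simp [cp]
lemma cp_cons (i j : A) (u w : List A) :
    cp α (i :: u) (j :: w) = if i = j then α i + cp α u w else 0 := by simp [cp]
@[simp] lemma cp_same (i : A) (u w : List A) : cp α (i :: u) (i :: w) = α i + cp α u w := by
  simp [cp]

lemma cp_comm (u w : List A) : cp α u w = cp α w u := by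
  induction u generalizing w with
  | nil => simp
  | cons i u ih =>
    cases w with
    | nil => simp
    | cons j w =>
      by_cases h : i = j
      · subst h; simp [ih]
      · simp [cp_cons, h, Ne.symm h]

lemma cp_append (z u w : List A) : cp α (z ++ u) (z ++ w) = wt α z + cp α u w := by
  induction z with
  | nil => simp
  | cons i z ih => simp [ih, add_assoc]

lemma cp_pre (z w : List A) : cp α z (z ++ w) = wt α z := by
  simpa using cp_append (α := α) z [] w

lemma cp_self (z : List A) : cp α z z = wt α z := by simpa using cp_pre (α := α) z []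

lemma cp_head {u w : List A} (h : ∀ i ∈ u.head?, i ∉ w.head?) : cp α u w = 0 := by
  cases u with
  | nil => simp
  | cons i u =>
    cases w with
    | nil => simp
    | cons j w => rw [cp_cons, if_neg]; rintro rfl; simp at h

variable (h0 : ∀ i, 0 ≤ α i)
include h0

omit [DecidableEq A] in
lemma wt_nonneg (l : List A) : 0 ≤ wt α l := by
  induction l with
  | nil => simp
  | cons i l ih => simpa using add_nonneg (h0 i) ih

lemma cp_nonneg (u w : List A) : 0 ≤ cp α u w := by
  induction u generalizing w with
  | nil => simp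
  | cons i u ih =>
    cases w with
    | nil => simp
    | cons j w =>
      rw [cp_cons]; split_ifs
      · exact add_nonneg (h0 i) (ih w)
      · rfl

lemma cp_ultra (u v w : List A) : min (cp α u v) (cp α v w) ≤ cp α u w := by
  induction u generalizing v w with
  | nil => simp
  | cons i u ih =>
    cases v with
    | nil => simp [cp_nonneg h0]
    | cons j v =>
      cases w with
      | nil => simp
      | cons k w =>
        by_cases h1 : i = j
        · by_cases h2 : j = k
          · subst h1 h2
            simp only [cp_same]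
            rw [min_add_add_left]
            exact add_le_add le_rfl (ih v w)
          · exact (min_le_right _ _).trans (by rw [cp_cons j, if_neg h2]; exact cp_nonneg h0 _ _)
        · exact (min_le_left _ _).trans (by rw [cp_cons i j, if_neg h1]; exact cp_nonneg h0 _ _)

lemma cp_le (u w : List A) : cp α u w ≤ wt α u := by
  induction u generalizing w with
  | nil => simp
  | cons i u ih =>
    cases w with
    | nil => simpa using wt_nonneg h0 (i :: u)
    | cons j w =>
      rw [cp_cons]; split_ifs
      · simpa using ih w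
      · exact wt_nonneg h0 _

lemma cp_le' (u w : List A) : cp α u w ≤ wt α w := cp_comm (α := α) w u ▸ cp_le h0 w u

lemma cp_ne {z z' : List A} (h : z.length = z'.length) (hne : z ≠ z') (u w : List A) :
    cp α (z ++ u) (z' ++ w) ≤ wt α z := by
  induction z generalizing z' with
  | nil => exact absurd (List.length_eq_zero_iff.1 h.symm).symm hne
  | cons i z ih =>
    cases z' with
    | nil => simp at h
    | cons j z' =>
      simp only [List.cons_append, cp_cons]
      split_ifs with e
      · subst e
        simpa using ih (by simpa using h) (fun e => hne (by rw [e]))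
      · exact wt_nonneg h0 _

end cp

section td
variable {A : Type} [DecidableEq A]

def one (A : Type) : A → ℝ := fun _ => 1

omit [DecidableEq A] in
lemma one0 (i : A) : 0 ≤ one A i := zero_le_one

omit [DecidableEq A] in
@[simp] lemma wt_one (l : List A) : wt (one A) l = l.length := by
  induction l with
  | nil => simp
  | cons i l ih => simp [ih, one, add_comm]

def td (u w : List A) : ℝ := u.length + w.length - 2 * cp (one A) u w

lemma td_append (z u w : List A) : td (z ++ u) (z ++ w) = td u w := by
  simp [td, cp_append]; ring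

lemma td_nonneg (u w : List A) : 0 ≤ td u w := by
  have := cp_le one0 u w
  have := cp_le' one0 u w
  simp only [wt_one, td] at *
  linarith

lemma pre_iff {v w : List A} : v <+: w ↔ (v.length : ℝ) ≤ cp (one A) v w := by
  constructor
  · rintro ⟨z, rfl⟩; simp [cp_pre]
  · induction v generalizing w with
    | nil => simp
    | cons i v ih =>
      cases w with
      | nil => intro h; simp at h; linarith [(v.length.cast_nonneg : (0 : ℝ) ≤ _)]
      | cons j w =>
        rw [cp_cons]
        split_ifs with e
        · subst e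
          intro h
          simp only [List.length_cons, one] at h
          push_cast at h
          exact List.cons_prefix_cons.2 ⟨rfl, ih (by linarith)⟩
        · intro h; simp at h; linarith [(v.length.cast_nonneg : (0 : ℝ) ≤ _)]

end td

noncomputable def el : ℝ := Real.logb 2 3

lemma el1 : 1 ≤ el := by
  rw [el, Real.le_logb_iff_rpow_le (by norm_num) (by norm_num)]; norm_num

lemma el_le {p q : ℕ} (h : 3 ^ q ≤ 2 ^ p) : q * el ≤ p := by
  have h1 : (3 : ℝ) ^ q ≤ 2 ^ p := by exact_mod_cast h
  have := Real.logb_le_logb_of_le (b := 2) (by norm_num) (by positivity) h1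
  simpa [Real.logb_pow, el] using this

lemma le_el {p q : ℕ} (h : 2 ^ p ≤ 3 ^ q) : p ≤ q * el := by
  have h1 : (2 : ℝ) ^ p ≤ 3 ^ q := by exact_mod_cast h
  have := Real.logb_le_logb_of_le (b := 2) (by norm_num) (by positivity) h1
  simpa [Real.logb_pow, el] using this

lemma el_le' {p q : ℕ} (h : q * el ≤ p) : (3 : ℝ) ^ q ≤ 2 ^ p := by
  rw [← Real.logb_le_logb (b := 2) (by norm_num) (by positivity) (by positivity)]
  simpa [Real.logb_pow, el] using h

lemma part (A B : Type) [Fintype A] [Fintype B] (h1 : Fintype.card B ≤ Fintype.card A)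
    (h2 : Fintype.card A ≤ Fintype.card B * 3) : ∃ (π : A → B) (ρ : B × Fin 3 → A),
      Function.Surjective ρ ∧ ∀ b j, π (ρ (b, j)) = b := by
  classical
  obtain ⟨S, s1, -, s3⟩ := Finset.exists_subsuperset_card_eq
    (Finset.subset_univ (Finset.univ ×ˢ {0} : Finset (B × Fin 3))) (n := Fintype.card A)
    (by simpa using h1) (by simpa using h2)
  obtain ⟨e⟩ : Nonempty (A ≃ S) := Fintype.card_eq.1 (by simp [s3])
  refine ⟨fun a => (e a).1.1, fun x => if h : x ∈ S then e.symm ⟨x, h⟩ else
    e.symm ⟨(x.1, 0), s1 (by simp)⟩, fun a => ⟨e a, by simp⟩, fun b j => ?_⟩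
  dsimp only
  split_ifs <;> simp

lemma step (p : ℕ) (hp : 2 ≤ p) (G : Finset (Fin 3)) (hG : G.Nonempty) :
    ∃ (n : ℕ) (s : (Fin p → Fin 2) → List (Fin 3) × Finset (Fin 3)), 1 ≤ n ∧ |n * el - p| ≤ el ∧
      (∀ a, (s a).1.length = n ∧ (∀ i ∈ (s a).1.head?, i ∈ G) ∧ (s a).2.Nonempty) ∧
      (∀ a a', a ≠ a' → (s a).1 = (s a').1 → Disjoint (s a).2 (s a').2) ∧
      ∀ z : List (Fin 3), z.length = n → (∀ i ∈ z.head?, i ∈ G) → ∀ j,
        ∃ a, (s a).1 = z ∧ j ∈ (s a).2 := by
  classical
  have g1 : 1 ≤ G.card := hG.card_pos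
  have g2 : G.card ≤ 3 := by simpa using G.card_le_univ
  have g3 : 4 ≤ 2 ^ p := Nat.pow_le_pow_right (n := 2) (by norm_num) hp
  have ex : ∃ q, 2 ^ p ≤ G.card * 3 ^ q * 3 :=
    ⟨p, by have := Nat.pow_le_pow_left (show 2 ≤ 3 by norm_num) p; nlinarith⟩
  obtain ⟨q, q1, q2⟩ : ∃ q, G.card * 3 ^ q ≤ 2 ^ p ∧ 2 ^ p ≤ G.card * 3 ^ q * 3 := by
    refine ⟨Nat.find ex, ?_, Nat.find_spec ex⟩
    rcases h : Nat.find ex with _ | q
    · omega
    · have := Nat.find_min ex (show q < Nat.find ex by omega)
      rw [pow_succ, ← mul_assoc]; omega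
  obtain ⟨π, ρ, r1, r2⟩ := part (Fin p → Fin 2) (G × (Fin q → Fin 3)) (by simpa using q1)
    (by simpa using q2)
  have inj : ∀ b b' : G × (Fin q → Fin 3), (b.1.1 :: List.ofFn b.2) = (b'.1.1 :: List.ofFn b'.2) →
      b = b' := by
    intro b b' h
    simp only [List.cons.injEq] at h
    exact Prod.ext (Subtype.ext h.1) (List.ofFn_injective h.2)
  refine ⟨q + 1, fun a => ((π a).1.1 :: List.ofFn (π a).2,
    Finset.univ.filter fun j => ρ (π a, j) = a), by omega, ?_, fun a => ⟨by simp, by simp, ?_⟩,
    fun a a' h1 h2 => ?_, fun z h1 h2 j => ?_⟩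
  · have e1 := el_le (p := p) (q := q) (by nlinarith [Nat.one_le_pow q 3 (by norm_num)])
    have e2 := le_el (p := p) (q := q + 2) (by
      rw [pow_add]; nlinarith [Nat.one_le_pow q 3 (by norm_num)])
    push_cast at *
    rw [abs_le]; constructor <;> linarith
  · obtain ⟨⟨b, j⟩, rfl⟩ := r1 a
    exact ⟨j, by simp [r2]⟩
  · rw [Finset.disjoint_left]
    intro j c1 c2
    simp only [Finset.mem_filter, Finset.mem_univ, true_and] at c1 c2
    exact h1 (by rw [← c1, inj _ _ h2, c2])
  · cases z with
    | nil => simp at h1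
    | cons i z =>
      obtain rfl : z.length = q := by simpa using h1
      refine ⟨ρ ((⟨i, h2 i rfl⟩, z.get), j), ?_, ?_⟩
      · simp [r2]
      · simp [r2]

theorem pos (p : ℕ) (hp : 2 ≤ p) : ∃ F : Finset (Fin 3) → List (Fin p → Fin 2) → List (Fin 3),
    ∀ G, G.Nonempty → (∀ x, ∀ i ∈ (F G x).head?, i ∈ G) ∧
      (∀ x y, |el * td (F G x) (F G y) - p * td x y| ≤ el * td x y + 2 * (p + el)) ∧
      ∀ w : List (Fin 3), (∀ i ∈ w.head?, i ∈ G) → ∃ x, el * td (F G x) w ≤ p + el := by
  choose! n s h1 h2 h3 h4 h5 using step p hp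
  let F : List (Fin p → Fin 2) → Finset (Fin 3) → List (Fin 3) :=
    fun x => x.rec (fun _ => []) fun a _ ih G => (s G a).1 ++ ih (s G a).2
  have F0 : ∀ G, F [] G = [] := fun _ => rfl
  have F1 : ∀ a x G, F (a :: x) G = (s G a).1 ++ F x (s G a).2 := fun _ _ _ => rfl
  have e0 := el1
  have p0 : (0 : ℝ) ≤ p := p.cast_nonneg
  have hd : ∀ G, G.Nonempty → ∀ x, ∀ i ∈ (F x G).head?, i ∈ G := by
    rintro G hG (_ | ⟨a, x⟩) i hi
    · simp [F0] at hi
    · obtain ⟨c1, c2, -⟩ := h3 G hG a
      have := h1 G hG
      rw [F1] at hi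
      rcases e : (s G a).1 with _ | ⟨j, z⟩
      · rw [e] at c1; simp at c1; omega
      · rw [e] at hi c2; exact c2 i hi
  have ln : ∀ x G, G.Nonempty → |el * (F x G).length - p * x.length| ≤ el * x.length := by
    intro x
    induction x with
    | nil => simp [F0]
    | cons a x ih =>
      intro G hG
      have c1 := abs_le.1 (ih _ (h3 G hG a).2.2)
      have c2 := abs_le.1 (h2 G hG)
      rw [F1, List.length_append, (h3 G hG a).1, List.length_cons]
      push_cast
      rw [abs_le]; constructor <;> linarith [c1.1, c1.2, c2.1, c2.2]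
  refine ⟨fun G x => F x G, fun G hG => ⟨hd G hG, fun x y => ?_, fun w hw => ?_⟩⟩
  · induction x generalizing y G with
    | nil => simpa [td, F0] using (ln y G hG).trans (by linarith)
    | cons a x ih =>
      cases y with
      | nil => simpa [td, F0, -List.length_cons] using (ln (a :: x) G hG).trans (by linarith)
      | cons b y =>
        by_cases e : a = b
        · subst e
          dsimp only
          rw [F1, F1, td_append, show td (a :: x) (a :: y) = td x y from td_append [a] x y]
          exact ih _ (h3 G hG a).2.2 y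
        · have c1 := abs_le.1 (ln (a :: x) G hG)
          have c2 := abs_le.1 (ln (b :: y) G hG)
          have c3 := abs_le.1 (h2 G hG)
          have c4 := cp_nonneg one0 (F (a :: x) G) (F (b :: y) G)
          have c5 : cp (one _) (F (a :: x) G) (F (b :: y) G) ≤ n G := by
            rw [F1, F1, ← (h3 G hG a).1, ← wt_one]
            by_cases e' : (s G a).1 = (s G b).1
            · rw [← e', cp_append, cp_head, add_zero]
              exact fun i c d => Finset.disjoint_left.1 (h4 G hG a b e e')
                (hd _ (h3 G hG a).2.2 x i c) (hd _ (h3 G hG b).2.2 y i d)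
            · exact cp_ne one0 (by rw [(h3 G hG a).1, (h3 G hG b).1]) e' _ _
          dsimp only
          rw [td, td, cp_cons, if_neg e, abs_le]
          constructor <;> nlinarith [c1.1, c1.2, c2.1, c2.2, c3.1, c3.2]
  · induction hn : w.length using Nat.strong_induction_on generalizing w G with
    | _ k ih =>
      by_cases c : w.length ≤ n G
      · refine ⟨[], ?_⟩
        have c1 := abs_le.1 (h2 G hG)
        have c2 : (w.length : ℝ) ≤ n G := by exact_mod_cast c
        simp only [td, F0, List.length_nil, cp_nil]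
        push_cast
        nlinarith [c1.2]
      · have c1 := h1 G hG
        rcases e : w.drop (n G) with _ | ⟨j, w'⟩
        · simp at e; omega
        obtain ⟨a, a1, a2⟩ := h5 G hG (w.take (n G)) (by simp; omega) (fun i hi => hw i (by
          rwa [List.head?_take, if_neg (by omega)] at hi)) j
        obtain ⟨x, hx⟩ := ih (w.length - n G) (by omega) _ (h3 G hG a).2.2 (j :: w')
          (by simpa using a2) (by rw [← e]; simp)
        refine ⟨a :: x, ?_⟩
        dsimp only at hx ⊢
        have e2 := td_append (w.take (n G)) (F x (s G a).2) (w.drop (n G))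
        rw [List.take_append_drop, e] at e2
        rwa [F1, a1, e2]

section neg
open Classical

noncomputable def cnt (P : List (Fin 2) → Prop) : ℕ → List (Fin 2) → ℕ
  | 0, u => if P u then 1 else 0
  | j + 1, u => cnt P j (u ++ [0]) + cnt P j (u ++ [1])

variable {P : List (Fin 2) → Prop}

lemma cnt_le (j : ℕ) (u : List (Fin 2)) : cnt P j u ≤ 2 ^ j := by
  induction j generalizing u with
  | zero => simp only [cnt]; split_ifs <;> simp
  | succ j ih => have := ih (u ++ [0]); have := ih (u ++ [1]); simp only [cnt]; omega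

lemma cnt_pos (j : ℕ) (u : List (Fin 2)) : 0 < cnt P j u ↔ ∃ z, z.length = j ∧ P (u ++ z) := by
  induction j generalizing u with
  | zero => by_cases h : P u <;> simp [cnt, h]
  | succ j ih =>
    simp only [cnt, Nat.add_pos_iff_pos_or_pos, ih]
    constructor
    · rintro (⟨z, h1, h2⟩ | ⟨z, h1, h2⟩) <;> exact ⟨_ :: z, by simp [h1], by simpa using h2⟩
    · rintro ⟨_ | ⟨i, z⟩, h1, h2⟩
      · simp at h1
      · fin_cases i
        · exact Or.inl ⟨z, by simpa using h1, by simpa using h2⟩
        · exact Or.inr ⟨z, by simpa using h1, by simpa using h2⟩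

lemma cnt_const (e : ℕ) (u : List (Fin 2)) (h : ∀ z, P (u ++ z) ↔ P u) :
    cnt P e u = 2 ^ e * cnt P 0 u := by
  induction e generalizing u with
  | zero => simp
  | succ e ih =>
    have key : ∀ i, cnt P e (u ++ [i]) = 2 ^ e * cnt P 0 u := fun i => by
      rw [ih _ fun z => by rw [List.append_assoc, h, h]]
      simp only [cnt, h]
    show cnt P e (u ++ [0]) + cnt P e (u ++ [1]) = _
    rw [key, key]; ring

lemma cnt_add (j e : ℕ) (u : List (Fin 2))
    (h : ∀ u', u'.length = u.length + j → ∀ z, P (u' ++ z) ↔ P u') :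
    cnt P (j + e) u = 2 ^ e * cnt P j u := by
  induction j generalizing u with
  | zero => simpa using cnt_const e u (h u rfl)
  | succ j ih =>
    rw [show j + 1 + e = j + e + 1 by ring, cnt, cnt, ih, ih, mul_add] <;>
      exact fun u' h' => h u' (by simp at h'; omega)

lemma cnt_sum (Q : Fin 3 → List (Fin 2) → Prop) (j : ℕ) (u : List (Fin 2))
    (h : ∀ u', u'.length = u.length + j → cnt P 0 u' = ∑ i, cnt (Q i) 0 u') :
    cnt P j u = ∑ i, cnt (Q i) j u := by
  induction j generalizing u with
  | zero => exact h u rfl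
  | succ j ih =>
    simp only [cnt, Finset.sum_add_distrib]
    rw [ih, ih] <;> exact fun u' h' => h u' (by simp at h'; omega)

lemma cnt_bd (D j : ℕ) (u : List (Fin 2))
    (h : ∀ x y, x.length = u.length + j → y.length = u.length + j → P x → P y → td x y ≤ D) :
    cnt P j u ≤ 2 ^ D := by
  induction j generalizing u with
  | zero => exact (cnt_le 0 u).trans (Nat.one_le_two_pow)
  | succ j ih =>
    by_cases c : j + 1 ≤ D
    · exact (cnt_le _ u).trans (Nat.pow_le_pow_right (by norm_num) c)
    have c0 := ih (u ++ [0]) fun x y h1 h2 => h x y (by simp at h1; omega) (by simp at h2; omega)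
    have c1 := ih (u ++ [1]) fun x y h1 h2 => h x y (by simp at h1; omega) (by simp at h2; omega)
    rw [cnt]
    by_contra hn
    obtain ⟨x, x1, x2⟩ := (cnt_pos (P := P) j (u ++ [0])).1 (by omega)
    obtain ⟨y, y1, y2⟩ := (cnt_pos (P := P) j (u ++ [1])).1 (by omega)
    have := h _ _ (by simp; omega) (by simp; omega) x2 y2
    rw [List.append_assoc, List.append_assoc, td_append] at this
    simp [td, cp_cons, x1, y1] at this
    have c2 : (D : ℝ) < j + 1 := by exact_mod_cast not_le.1 c
    linarith [(j.cast_nonneg : (0 : ℝ) ≤ _)]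

lemma ratio (m : List (Fin 3) → ℕ) (j : ℕ → ℕ) (M : ℕ) (hj : Monotone j)
    (h0 : ∀ n, (3 : ℝ) ^ n ≤ 2 ^ j n) (h1 : ∀ v, 0 < m v) (h2 : ∀ v, m v ≤ M)
    (h3 : ∀ v, 2 ^ (j (v.length + 1) - j v.length) * m v = ∑ i, m (v ++ [i])) : False := by
  let r : List (Fin 3) → ℝ := fun v => m v * 3 ^ v.length / 2 ^ j v.length
  have M0 : (0 : ℝ) < M := by exact_mod_cast (h1 []).trans_le (h2 [])
  have r0 : ∀ v, 0 < r v := fun v => by have := h1 v; positivity
  have r1 : BddAbove (Set.range r) := ⟨M, by
    rintro _ ⟨v, rfl⟩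
    rw [div_le_iff₀ (by positivity)]
    exact mul_le_mul (by exact_mod_cast h2 v) (h0 _) (by positivity) M0.le⟩
  have r2 : ∀ v i, r (v ++ [i]) * (2 ^ (j (v.length + 1) - j v.length) * m v : ℕ) =
      r v * (3 * m (v ++ [i]) : ℕ) := by
    intro v i
    obtain ⟨e, he⟩ := Nat.exists_eq_add_of_le (hj (Nat.le_succ v.length))
    simp only [r, List.length_append, List.length_singleton]
    rw [he, Nat.add_sub_cancel_left]
    push_cast
    field_simp
    ring
  obtain ⟨v, hv⟩ : ∃ v, (⨆ v, r v) / (1 + 1 / (3 * M)) < r v := exists_lt_of_lt_ciSup (by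
    rw [div_lt_iff₀ (by positivity)]
    have : 0 < ⨆ v, r v := (r0 []).trans_le (le_ciSup r1 [])
    have : 0 < (⨆ v, r v) * (1 / (3 * M)) := by positivity
    linarith)
  rw [div_lt_iff₀ (by positivity)] at hv
  have key : ∀ v, (⨆ v, r v) < r v * (1 + 1 / (3 * M)) →
      3 * m (v ++ [0]) = 2 ^ (j (v.length + 1) - j v.length) * m v ∧ r (v ++ [0]) = r v := by
    intro v hv
    set N := 2 ^ (j (v.length + 1) - j v.length) * m v with hN
    have N0 : 0 < N := by have := h1 v; positivity
    have N1 : N ≤ 3 * M := by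
      rw [hN, h3, Fin.sum_univ_three]
      have := h2 (v ++ [0]); have := h2 (v ++ [1]); have := h2 (v ++ [2]); omega
    have le : ∀ i, 3 * m (v ++ [i]) ≤ N := fun i => by
      by_contra c
      have c1 : ((N : ℝ) + 1) ≤ (3 * m (v ++ [i]) : ℕ) := by exact_mod_cast not_le.1 c
      have c2 := (le_ciSup r1 (v ++ [i])).trans_lt hv
      have c3 := r2 v i
      have c4 : (0 : ℝ) < N := by exact_mod_cast N0
      have c5 : (N : ℝ) * (1 / (3 * M)) ≤ 1 := by
        rw [mul_one_div, div_le_one (by positivity)]; exact_mod_cast N1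
      have := r0 v
      rw [← hN] at c3
      nlinarith [mul_lt_mul_of_pos_right c2 c4]
    have e : 3 * m (v ++ [0]) = N := by
      have := h3 v
      rw [← hN, Fin.sum_univ_three] at this
      have := le 0; have := le 1; have := le 2
      omega
    have c3 := r2 v 0
    rw [← hN, e] at c3
    exact ⟨e, mul_right_cancel₀ (by positivity) c3⟩
  have fin : ∀ k v, (⨆ v, r v) < r v * (1 + 1 / (3 * M)) → 3 ^ k ∣ m v := by
    intro k
    induction k with
    | zero => simp
    | succ k ih =>
      intro v hv
      obtain ⟨c1, c2⟩ := key v hv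
      have c3 := Nat.mul_dvd_mul_left 3 (ih (v ++ [0]) (by rwa [c2]))
      rw [c1, ← pow_succ'] at c3
      exact (Nat.Coprime.pow _ _ (by norm_num)).dvd_of_dvd_mul_left c3
  exact absurd (Nat.le_of_dvd (h1 v) (fin (m v) v hv))
    (not_le.2 (Nat.lt_pow_self (by norm_num)))

theorem neg (f : List (Fin 2) → List (Fin 3)) (C : ℝ)
    (h1 : ∀ x y, |el * td (f x) (f y) - td x y| ≤ C)
    (h2 : ∀ w, ∃ x, el * td (f x) (0 :: w) ≤ C) : False := by
  have e0 := el1
  have C0 : 0 ≤ C := (abs_nonneg _).trans (h1 [] [])
  obtain ⟨K, K1, hK⟩ : ∃ K : ℝ, C ≤ K ∧ ∀ x, |el * (f x).length - x.length| ≤ K := by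
    refine ⟨C + el * (f []).length, by nlinarith [((f []).length.cast_nonneg : (0 : ℝ) ≤ _)],
      fun x => ?_⟩
    have c1 := abs_le.1 (h1 [] x)
    have c2 := cp_nonneg one0 (f []) (f x)
    have c3 := cp_le one0 (f []) (f x)
    simp only [td, wt_one, List.length_nil, cp_nil] at c1 c3
    push_cast at c1
    rw [abs_le]; constructor <;> nlinarith [c1.1, c1.2]
  let j : ℕ → ℕ := fun n => ⌈(n + 1) * el + 2 * K⌉₊
  have j1 : ∀ n : ℕ, (n + 1) * el + 2 * K ≤ j n := fun n => Nat.le_ceil _
  have j2 : ∀ n : ℕ, (j n : ℝ) ≤ (n + 1) * el + 2 * K + 1 := fun n =>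
    (Nat.ceil_lt_add_one (by have := C0.trans K1; positivity)).le
  have jm : Monotone j := fun a b h => Nat.ceil_mono (by
    have : (a : ℝ) ≤ b := by exact_mod_cast h
    nlinarith)
  have st : ∀ v u : List _, j v.length ≤ u.length → ∀ z,
      (0 :: v <+: f (u ++ z) ↔ 0 :: v <+: f u) := by
    intro v u h z
    have c1 := (abs_le.1 (h1 u (u ++ z))).2
    have c2 := (abs_le.1 (hK u)).1
    have c3 := (abs_le.1 (hK (u ++ z))).1
    have c4 := j1 v.length
    have c5 : (j v.length : ℝ) ≤ u.length := by exact_mod_cast h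
    simp only [td, cp_pre, wt_one] at c1
    have c6 : ((0 :: v).length : ℝ) ≤ cp (one _) (f u) (f (u ++ z)) := by
      simp only [List.length_cons]
      push_cast
      refine le_of_mul_le_mul_left ?_ (show 0 < el by linarith)
      linarith
    simp only [pre_iff]
    exact ⟨fun h => (le_min h (by rwa [cp_comm])).trans (cp_ultra one0 _ _ _),
      fun h => (le_min h c6).trans (cp_ultra one0 _ _ _)⟩
  refine ratio (fun v => cnt (fun u => 0 :: v <+: f u) (j v.length) []) j (2 ^ ⌈7 * K + 2⌉₊) jm
    (fun n => el_le' (by linarith [j1 n])) (fun v => ?_) (fun v => ?_) fun v => ?_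
  · obtain ⟨n, hn⟩ := exists_nat_ge (4 * K + 1)
    obtain ⟨x, hx⟩ := h2 (v ++ List.replicate n 0)
    have c1 := cp_le one0 (f x) (0 :: (v ++ List.replicate n 0))
    have c2 := cp_le' one0 (f x) (0 :: (v ++ List.replicate n 0))
    have c3 := (abs_le.1 (hK x)).2
    have c4 := j2 v.length
    have n0 : (0 : ℝ) ≤ n := n.cast_nonneg
    simp only [td, wt_one, List.length_cons, List.length_append, List.length_replicate] at hx c1 c2
    push_cast at hx c2
    have c5 : j v.length ≤ x.length := by
      have : (j v.length : ℝ) ≤ x.length := by nlinarith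
      exact_mod_cast this
    refine (cnt_pos _ _).2 ⟨x.take (j v.length), by simp [c5], ?_⟩
    rw [List.nil_append, ← st v _ (by simp [c5]) (x.drop (j v.length)), List.take_append_drop,
      pre_iff]
    refine (le_min ?_ ?_).trans (cp_ultra one0 _ (0 :: (v ++ List.replicate n 0)) _)
    · rw [← List.cons_append, cp_pre, wt_one]
    · rw [cp_comm, List.length_cons]
      push_cast
      refine le_of_mul_le_mul_left ?_ (show 0 < el by linarith)
      nlinarith
  · refine cnt_bd _ _ _ fun x y x1 y1 x2 y2 => le_trans ?_ (Nat.le_ceil _)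
    have c1 := (abs_le.1 (h1 x y)).1
    have c2 := (abs_le.1 (hK x)).2
    have c3 := (abs_le.1 (hK y)).2
    have c4 := j2 v.length
    have c5 := (le_min ((pre_iff.1 x2).trans (cp_comm _ _).le) (pre_iff.1 y2)).trans
      (cp_ultra one0 (f x) (0 :: v) (f y))
    simp only [List.length_nil, zero_add] at x1 y1
    rw [x1] at c2
    rw [y1] at c3
    rw [td] at c1
    simp only [List.length_cons] at c5
    push_cast at c5
    nlinarith
  · obtain ⟨e, he⟩ := Nat.exists_eq_add_of_le (jm (Nat.le_succ v.length))
    simp only [List.length_append, List.length_singleton]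
    rw [he, Nat.add_sub_cancel_left, ← cnt_add _ _ _ fun u hu => st v u (by simp at hu; omega), ← he]
    refine cnt_sum (fun i u => 0 :: (v ++ [i]) <+: f u) _ _ fun u hu => ?_
    have c1 := (abs_le.1 (hK u)).1
    have c2 := j1 (v.length + 1)
    simp only [List.length_nil, zero_add] at hu
    rw [hu] at c1
    push_cast at c2
    have c3 : v.length + 2 ≤ (f u).length := by
      have : (v.length + 2 : ℝ) ≤ (f u).length :=
        le_of_mul_le_mul_left (by linarith) (show 0 < el by linarith)
      exact_mod_cast this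
    simp only [cnt]
    by_cases c : 0 :: v <+: f u
    · obtain ⟨_ | ⟨i, z⟩, hz⟩ := c
      · rw [← hz] at c3; simp at c3
      · simp [← hz, List.prefix_append_right_inj, List.cons_prefix_cons]
    · rw [if_neg c, Finset.sum_eq_zero]
      exact fun i _ => if_neg fun h => c ((List.prefix_append (0 :: v) [i]).trans h)

end neg

end Pool.Agent.H.MP_77f213_al
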