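import Pool.Agent.H.MP_77f213_al.A

set_option autoImplicit false

namespace Pool.Agent.H.MP_77f213_al

def rd : List (Fin 3) → Prop
  | [] => True
  | i :: t => t.head? ≠ some i ∧ rd t

lemma rd_pre {u z : List (Fin 3)} (h : rd (u ++ z)) : rd u := by
  induction u with
  | nil => trivial
  | cons i u ih =>
    refine ⟨fun e => h.1 ?_, ih h.2⟩
    cases u with
    | nil => simp at e
    | cons j u => simpa using e

lemma cp_z {α : Fin 3 → ℝ} {t : List (Fin 3)} {i : Fin 3} (h : t.head? ≠ some i)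
    (w : List (Fin 3)) : cp α t (i :: w) = 0 :=
  cp_head fun j a b => h (by simp at b; rw [b]; exact a)

lemma cp_z' {α : Fin 3 → ℝ} {t : List (Fin 3)} {i : Fin 3} (h : t.head? ≠ some i)
    (w : List (Fin 3)) : cp α (i :: w) t = 0 := by rw [cp_comm, cp_z h]

variable (α : Fin 3 → ℝ)

def ok (w : List (Fin 3)) (s : ℝ) : Prop := rd w ∧ 0 ≤ s ∧ s ≤ wt α w

def P : Type := {x : List (Fin 3) × ℝ // ok α x.1 x.2}

def gp (w : List (Fin 3)) (s : ℝ) (u : List (Fin 3)) (t : ℝ) : ℝ := min (min s t) (cp α w u)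

variable {α}

lemma gp_comm (w : List (Fin 3)) (s : ℝ) (u : List (Fin 3)) (t : ℝ) :
    gp α w s u t = gp α u t w s := by rw [gp, gp, min_comm s, cp_comm]

lemma gp_le (w : List (Fin 3)) (s : ℝ) (u : List (Fin 3)) (t : ℝ) : gp α w s u t ≤ s :=
  (min_le_left _ _).trans (min_le_left _ _)

lemma gp_le' (w : List (Fin 3)) (s : ℝ) (u : List (Fin 3)) (t : ℝ) : gp α w s u t ≤ t :=
  (min_le_left _ _).trans (min_le_right _ _)

variable [h0 : Fact (∀ i, 0 ≤ α i)]

lemma gp_ultra (w : List (Fin 3)) (s : ℝ) (u : List (Fin 3)) (t : ℝ) (v : List (Fin 3)) (r : ℝ) :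
    min (gp α w s u t) (gp α u t v r) ≤ gp α w s v r :=
  le_min (le_min ((min_le_left _ _).trans (gp_le _ _ _ _)) ((min_le_right _ _).trans
    (gp_le' _ _ _ _))) ((min_le_min (min_le_right _ _) (min_le_right _ _)).trans
      (cp_ultra h0.out _ _ _))

instance : PseudoMetricSpace (P α) where
  dist x y := x.1.2 + y.1.2 - 2 * gp α x.1.1 x.1.2 y.1.1 y.1.2
  dist_self x := by
    rw [gp, min_self, cp_self, min_eq_left x.2.2.2]; ring
  dist_comm x y := by rw [gp_comm]; ring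
  dist_triangle x y z := by
    have := gp_le' (α := α) x.1.1 x.1.2 y.1.1 y.1.2
    have := gp_le (α := α) y.1.1 y.1.2 z.1.1 z.1.2
    rcases min_le_iff.1 (gp_ultra (α := α) x.1.1 x.1.2 y.1.1 y.1.2 z.1.1 z.1.2) with h | h <;>
      linarith

variable (α) in
def X : Type := SeparationQuotient (P α)

noncomputable instance : MetricSpace (X α) :=
  inferInstanceAs (MetricSpace (SeparationQuotient (P α)))

variable (α) in
open Classical in
noncomputable def pt (w : List (Fin 3)) (s : ℝ) : X α :=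
  SeparationQuotient.mk (if h : ok α w s then ⟨(w, s), h⟩ else ⟨([], 0), trivial, le_rfl, le_rfl⟩)

lemma pt_mk (x : P α) : pt α x.1.1 x.1.2 = SeparationQuotient.mk x := by
  rw [pt, dif_pos x.2]
  rfl

lemma pt_surj (x : X α) : ∃ w s, ok α w s ∧ x = pt α w s := by
  obtain ⟨y, rfl⟩ := SeparationQuotient.surjective_mk x
  exact ⟨_, _, y.2, (pt_mk y).symm⟩

lemma dist_pt {w u : List (Fin 3)} {s t : ℝ} (h1 : ok α w s) (h2 : ok α u t) :
    dist (pt α w s) (pt α u t) = s + t - 2 * gp α w s u t := by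
  rw [pt, pt, dif_pos h1, dif_pos h2]
  exact SeparationQuotient.dist_mk _ _

lemma pt_eq {w u : List (Fin 3)} {s : ℝ} (h1 : ok α w s) (h2 : ok α u s) (h : s ≤ cp α w u) :
    pt α w s = pt α u s := by
  rw [← dist_eq_zero, dist_pt h1 h2, gp, min_self, min_eq_left h]; ring

lemma hyp (x y z w : X α) :
    min ((dist x w + dist y w - dist x y) / 2) ((dist y w + dist z w - dist y z) / 2) - 0
      ≤ (dist x w + dist z w - dist x z) / 2 := by
  obtain ⟨x, a, h1, rfl⟩ := pt_surj x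
  obtain ⟨y, b, h2, rfl⟩ := pt_surj y
  obtain ⟨z, c, h3, rfl⟩ := pt_surj z
  obtain ⟨w, d, h4, rfl⟩ := pt_surj w
  rw [dist_pt h1 h4, dist_pt h2 h4, dist_pt h1 h2, dist_pt h3 h4, dist_pt h2 h3, dist_pt h1 h3]
  have e1 := gp_ultra (α := α) x a y b z c
  have e2 := gp_ultra (α := α) x a w d z c
  have e3 := gp_ultra (α := α) y b z c w d
  have e4 := gp_ultra (α := α) y b x a w d
  rw [gp_comm w] at e2
  rw [gp_comm y] at e4
  rw [sub_zero, min_le_iff]
  by_contra hn
  push Not at hn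
  rcases min_le_iff.1 e1 with e1 | e1 <;> rcases min_le_iff.1 e2 with e2 | e2 <;>
    rcases min_le_iff.1 e3 with e3 | e3 <;> rcases min_le_iff.1 e4 with e4 | e4 <;>
      linarith [hn.1, hn.2]

lemma dist_same {w : List (Fin 3)} {s t : ℝ} (h1 : ok α w s) (h2 : ok α w t) :
    dist (pt α w s) (pt α w t) = |s - t| := by
  rw [dist_pt h1 h2, gp, cp_self, min_eq_left ((min_le_left _ _).trans h1.2.2)]
  rcases le_total s t with h | h
  · rw [min_eq_left h, abs_of_nonpos (by linarith)]; ring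
  · rw [min_eq_right h, abs_of_nonneg (by linarith)]; ring

lemma geo (x y : X α) : ∃ γ : ℝ → X α, γ 0 = x ∧ γ (dist x y) = y ∧
    ∀ s ∈ Set.Icc (0 : ℝ) (dist x y), ∀ t ∈ Set.Icc (0 : ℝ) (dist x y),
      dist (γ s) (γ t) = |s - t| := by
  obtain ⟨w, a, h1, rfl⟩ := pt_surj x
  obtain ⟨u, b, h2, rfl⟩ := pt_surj y
  rw [dist_pt h1 h2]
  have m1 := gp_le (α := α) w a u b
  have m2 := gp_le' (α := α) w a u b
  have m3 : gp α w a u b ≤ cp α w u := min_le_right _ _
  have m4 : 0 ≤ gp α w a u b := le_min (le_min h1.2.1 h2.2.1) (cp_nonneg h0.out _ _)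
  have m5 : gp α w a u b = a ∨ gp α w a u b = b ∨ gp α w a u b = cp α w u := by
    rw [gp]
    rcases min_choice (min a b) (cp α w u) with h | h
    · rw [h]; rcases min_choice a b with h | h <;> simp [h]
    · simp [h]
  set m := gp α w a u b
  have o1 : ∀ s, 0 ≤ s → s ≤ a - m → ok α w (a - s) := fun s c d =>
    ⟨h1.1, by linarith, by linarith [h1.2.2]⟩
  have o2 : ∀ s, s ≤ a + b - 2 * m → ¬ s ≤ a - m → ok α u (s - a + 2 * m) := fun s c d =>
    ⟨h2.1, by linarith [not_le.1 d], by linarith [h2.2.2]⟩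
  have mix : ∀ s t, 0 ≤ s → s ≤ a - m → t ≤ a + b - 2 * m → ¬ t ≤ a - m →
      dist (pt α w (a - s)) (pt α u (t - a + 2 * m)) = |s - t| := by
    intro s t c1 c2 c3 c4
    have c5 := not_le.1 c4
    rw [dist_pt (o1 s c1 c2) (o2 t c3 c4), abs_of_nonpos (by linarith)]
    have : gp α w (a - s) u (t - a + 2 * m) = m := by
      refine le_antisymm ?_ (le_min (le_min (by linarith) (by linarith)) m3)
      rcases m5 with h | h | h
      · linarith [gp_le (α := α) w (a - s) u (t - a + 2 * m)]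
      · linarith
      · exact (min_le_right _ _).trans h.ge
    rw [this]; ring
  refine ⟨fun t => if t ≤ a - m then pt α w (a - t) else pt α u (t - a + 2 * m), ?_, ?_,
    fun s hs t ht => ?_⟩
  · simp [m1]
  · dsimp only
    split_ifs with c
    · rw [show a - (a + b - 2 * m) = b by linarith]
      exact pt_eq ⟨h1.1, h2.2.1, by linarith [h1.2.2]⟩ h2 (by linarith)
    · congr 1; ring
  · dsimp only
    split_ifs with c d d
    · rw [dist_same (o1 s hs.1 c) (o1 t ht.1 d), abs_sub_comm]; congr 1; ring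
    · exact mix s t hs.1 c ht.2 d
    · rw [dist_comm, abs_sub_comm]; exact mix t s ht.1 d hs.2 c
    · rw [dist_same (o2 s hs.2 c) (o2 t ht.2 d)]; congr 1; ring

variable (α) in
noncomputable def vx (w : List (Fin 3)) : X α := pt α w (wt α w)

lemma ok_vx {w : List (Fin 3)} (h : rd w) : ok α w (wt α w) := ⟨h, wt_nonneg h0.out _, le_rfl⟩

lemma dist_vx {u w : List (Fin 3)} (h1 : rd u) (h2 : rd w) :
    dist (vx α u) (vx α w) = wt α u + wt α w - 2 * cp α u w := by
  rw [vx, vx, dist_pt (ok_vx h1) (ok_vx h2), gp,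
    min_eq_right (le_min (cp_le h0.out _ _) (cp_le' h0.out _ _))]

lemma dist_root {w : List (Fin 3)} {s : ℝ} (h : ok α w s) : dist (pt α w s) (vx α []) = s := by
  rw [vx, dist_pt h (ok_vx (w := []) trivial), gp]
  simp [h.2.1]

lemma near {M : ℝ} (hM : ∀ i, α i ≤ M) (x : X α) : ∃ u, rd u ∧ dist (vx α u) x ≤ M := by
  obtain ⟨w, s, h, rfl⟩ := pt_surj x
  have key : ∀ (w : List (Fin 3)) (s : ℝ), 0 ≤ s → s ≤ wt α w →
      ∃ u z, w = u ++ z ∧ wt α u ≤ s ∧ s ≤ wt α u + M := by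
    intro w
    induction w with
    | nil => exact fun s a b => ⟨[], [], rfl, a, by linarith [hM 0, h0.out 0]⟩
    | cons i w ih =>
      intro s a b
      by_cases c : s ≤ α i
      · exact ⟨[], _, rfl, a, by simpa using c.trans (hM i)⟩
      · obtain ⟨u, z, rfl, c1, c2⟩ := ih (s - α i) (by linarith) (by simp at b; linarith)
        exact ⟨i :: u, z, rfl, by simp; linarith, by simp; linarith⟩
  obtain ⟨u, z, rfl, c1, c2⟩ := key w s h.2.1 h.2.2
  refine ⟨u, rd_pre h.1, ?_⟩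
  rw [vx, dist_pt (ok_vx (rd_pre h.1)) h, gp, cp_pre, min_eq_left c1, min_self]
  linarith

lemma len_le (h1 : ∀ i j, i ≠ j → 1 ≤ α i + α j) :
    ∀ {w : List (Fin 3)}, rd w → (w.length : ℝ) ≤ 2 * wt α w + 1
  | [], _ => by simp
  | [i], _ => by simp [h0.out i]
  | i :: j :: w, h => by
    have := len_le h1 h.2.2
    have := h1 i j (fun e => h.1 (by simp [e]))
    simp only [List.length_cons, wt_cons]
    push_cast
    linarith

lemma proper (h1 : ∀ i j, i ≠ j → 1 ≤ α i + α j) : ProperSpace (X α) := by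
  refine ⟨fun x r => ?_⟩
  obtain ⟨N, hN⟩ := exists_nat_ge (2 * (r + dist x (vx α [])) + 1)
  have fin : {w : List (Fin 3) | w.length ≤ N ∧ rd w}.Finite :=
    (List.finite_length_le _ N).subset fun _ h => h.1
  refine (fin.isCompact_biUnion (f := fun w => pt α w '' Set.Icc 0 (wt α w))
    fun w hw => isCompact_Icc.image_of_continuousOn ?_).of_isClosed_subset
      Metric.isClosed_closedBall fun y hy => ?_
  · refine (LipschitzOnWith.of_dist_le_mul (K := 1) fun s hs t ht => ?_).continuousOn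
    rw [dist_same ⟨hw.2, hs⟩ ⟨hw.2, ht⟩]
    simp [Real.dist_eq]
  · obtain ⟨w, s, h, rfl⟩ := pt_surj y
    have c1 := dist_triangle (pt α w s) x (vx α [])
    rw [dist_root h] at c1
    rw [Metric.mem_closedBall] at hy
    simp only [Set.mem_iUnion]
    by_cases c : w.length ≤ N
    · exact ⟨w, ⟨c, h.1⟩, s, h.2, rfl⟩
    · have c2 : rd (w.take N) := rd_pre (z := w.drop N) (by simpa using h.1)
      have c3 := len_le h1 c2
      rw [List.length_take_of_le (by omega)] at c3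
      refine ⟨w.take N, ⟨by simp, c2⟩, s, ⟨h.2.1, by linarith⟩,
        pt_eq ⟨c2, h.2.1, by linarith⟩ h ?_⟩
      have := cp_pre (α := α) (w.take N) (w.drop N)
      rw [List.take_append_drop] at this
      linarith

open Classical in
noncomputable def sg (α : Fin 3 → ℝ) (i : Fin 3) (w : List (Fin 3)) (s : ℝ) : List (Fin 3) × ℝ :=
  if w.head? = some i then (if α i ≤ s then (w.tail, s - α i) else ([i], α i - s))
  else (i :: w, s + α i)

omit h0 in
lemma sg_cases (i : Fin 3) {w : List (Fin 3)} {s : ℝ} (h : ok α w s) :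
    (∃ t, w = i :: t ∧ t.head? ≠ some i ∧ α i ≤ s ∧ sg α i w s = (t, s - α i)) ∨
    (∃ t, w = i :: t ∧ s < α i ∧ sg α i w s = ([i], α i - s)) ∨
    (w.head? ≠ some i ∧ sg α i w s = (i :: w, s + α i)) := by
  by_cases c : w.head? = some i
  · obtain ⟨t, rfl⟩ := List.head?_eq_some_iff.1 c
    by_cases d : α i ≤ s
    · exact Or.inl ⟨t, rfl, h.1.1, d, by simp [sg, d]⟩
    · exact Or.inr (Or.inl ⟨t, rfl, not_le.1 d, by simp [sg, d]⟩)
  · exact Or.inr (Or.inr ⟨c, by simp [sg, c]⟩)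

lemma sg_ok (i : Fin 3) {w : List (Fin 3)} {s : ℝ} (h : ok α w s) :
    ok α (sg α i w s).1 (sg α i w s).2 := by
  rcases sg_cases i h with ⟨t, rfl, -, c, e⟩ | ⟨t, rfl, c, e⟩ | ⟨c, e⟩ <;> rw [e]
  · exact ⟨h.1.2, by linarith, by have := h.2.2; simp at this ⊢; linarith⟩
  · exact ⟨⟨by simp, trivial⟩, by linarith, by simpa using h.2.1⟩
  · exact ⟨⟨c, h.1⟩, by linarith [h.2.1, h0.out i], by simp; linarith [h.2.2]⟩

lemma sg_dist (i : Fin 3) {w u : List (Fin 3)} {s t : ℝ} (h1 : ok α w s) (h2 : ok α u t) :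
    (sg α i w s).2 + (sg α i u t).2 -
      2 * gp α (sg α i w s).1 (sg α i w s).2 (sg α i u t).1 (sg α i u t).2 =
      s + t - 2 * gp α w s u t := by
  have a0 := h0.out i
  have s0 := h1.2.1
  have t0 := h2.2.1
  rcases sg_cases i h1 with ⟨w, rfl, b, c, e⟩ | ⟨w, rfl, c, e⟩ | ⟨c, e⟩ <;>
    rcases sg_cases i h2 with ⟨u, rfl, b', c', e'⟩ | ⟨u, rfl, c', e'⟩ | ⟨c', e'⟩ <;>
    have := cp_nonneg h0.out w u <;>
    rw [e, e'] <;> simp only [gp, cp_same, cp_nil, cp_nil', cp_z, cp_z', ne_eq, not_false_eq_true, *,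
      min_def] <;> split_ifs <;> linarith

noncomputable def sx (i : Fin 3) : X α → X α :=
  SeparationQuotient.map fun x : P α => (⟨sg α i x.1.1 x.1.2, sg_ok i x.2⟩ : P α)

lemma sx_pt (i : Fin 3) {w : List (Fin 3)} {s : ℝ} (h : ok α w s) :
    sx i (pt α w s) = pt α (sg α i w s).1 (sg α i w s).2 := by
  rw [pt, dif_pos h, pt, dif_pos (sg_ok i h)]
  exact SeparationQuotient.map_mk
    (Isometry.of_dist_eq fun x y : P α => sg_dist i x.2 y.2).uniformContinuous _

lemma sx_iso (i : Fin 3) : Isometry (sx (α := α) i) := by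
  refine Isometry.of_dist_eq fun x y => ?_
  obtain ⟨w, s, h1, rfl⟩ := pt_surj x
  obtain ⟨u, t, h2, rfl⟩ := pt_surj y
  rw [sx_pt i h1, sx_pt i h2, dist_pt (sg_ok i h1) (sg_ok i h2), sg_dist i h1 h2, dist_pt h1 h2]

lemma sx_inv (i : Fin 3) : Function.Involutive (sx (α := α) i) := by
  intro x
  obtain ⟨w, s, h, rfl⟩ := pt_surj x
  have h' := sg_ok i (sg_ok i h)
  rw [sx_pt i h, sx_pt i (sg_ok i h)]
  rcases sg_cases i h with ⟨t, rfl, b, c, e⟩ | ⟨t, rfl, c, e⟩ | ⟨c, e⟩ <;> rw [e] at h' ⊢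
  · simp [sg, b]
  · by_cases d : s = 0
    · subst d
      simp only [sg, List.head?_cons, if_true, sub_zero, le_refl, sub_self] at h' ⊢
      exact pt_eq h' h (cp_nonneg h0.out _ _)
    · have : ¬ α i ≤ α i - s := by
        have := lt_of_le_of_ne h.2.1 (Ne.symm d)
        linarith
      simp only [sg, List.head?_cons, if_true, this, if_false, sub_sub_cancel] at h' ⊢
      exact pt_eq h' h (by simp [c.le])
  · simp [sg, h.2.1]

variable (α) in
noncomputable def ph (w : List (Fin 3)) : Equiv.Perm (X α) :=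
  (w.map fun i => (sx_inv (α := α) i).toPerm).prod

lemma ph_cons (i : Fin 3) (w : List (Fin 3)) :
    ph α (i :: w) = (sx_inv (α := α) i).toPerm * ph α w := by simp [ph]

lemma ph_append (u w : List (Fin 3)) : ph α (u ++ w) = ph α u * ph α w := by simp [ph]

lemma ph_two (i : Fin 3) (w : List (Fin 3)) : ph α (i :: i :: w) = ph α w := by
  ext x
  simp [ph_cons, sx_inv i _]

lemma ph_rev (w : List (Fin 3)) : ph α w.reverse = (ph α w)⁻¹ := by
  induction w with
  | nil => simp [ph]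
  | cons i w ih =>
    rw [List.reverse_cons, ph_append, ih, ph_cons i w, mul_inv_rev]
    congr 1

lemma ph_iso (w : List (Fin 3)) : Isometry (ph α w) := by
  induction w with
  | nil => exact isometry_id
  | cons i w ih => rw [ph_cons]; exact (sx_iso i).comp ih

lemma ph_root {w : List (Fin 3)} (h : rd w) : ph α w (vx α []) = vx α w := by
  induction w with
  | nil => rfl
  | cons i w ih =>
    rw [ph_cons, Equiv.Perm.mul_apply, ih h.2, Function.Involutive.coe_toPerm, vx,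
      sx_pt i (ok_vx h.2), vx]
    simp [sg, h.1, add_comm]

variable (α) (β : Fin 3 → ℝ) [Fact (∀ i, 0 ≤ β i)]

def G : Subgroup (Equiv.Perm (X α) × Equiv.Perm (X β)) where
  carrier := Set.range fun w => (ph α w, ph β w)
  mul_mem' := by
    rintro _ _ ⟨u, rfl⟩ ⟨w, rfl⟩
    exact ⟨u ++ w, by simp [ph_append]⟩
  one_mem' := ⟨[], rfl⟩
  inv_mem' := by
    rintro _ ⟨w, rfl⟩
    exact ⟨w.reverse, by simp [ph_rev]⟩

variable {α β}

lemma G_red (g : G α β) : ∃ w, rd w ∧ g.1 = (ph α w, ph β w) := by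
  obtain ⟨_, w, rfl⟩ := g
  induction w with
  | nil => exact ⟨[], trivial, rfl⟩
  | cons i w ih =>
    obtain ⟨u, h1, h2⟩ := ih
    simp only [Prod.mk.injEq] at h2 ⊢
    by_cases c : u.head? = some i
    · obtain ⟨t, rfl⟩ := List.head?_eq_some_iff.1 c
      exact ⟨t, h1.2, by rw [ph_cons, h2.1, ← ph_cons, ph_two],
        by rw [ph_cons, h2.2, ← ph_cons, ph_two]⟩
    · exact ⟨i :: u, ⟨c, h1⟩, by rw [ph_cons, h2.1, ← ph_cons], by rw [ph_cons, h2.2, ← ph_cons]⟩

lemma act {γ : Fin 3 → ℝ} [Fact (∀ i, 0 ≤ γ i)] (h1 : ∀ i j, i ≠ j → 1 ≤ γ i + γ j) {M : ℝ}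
    (hM : ∀ i, γ i ≤ M) [MulAction (G α β) (X γ)]
    (h : ∀ (g : G α β) w, g.1 = (ph α w, ph β w) → ∀ x : X γ, g • x = ph γ w x) :
    IsIsometricSMul (G α β) (X γ) ∧ ProperlyDiscontinuousSMul (G α β) (X γ) ∧
      ∃ K : Set (X γ), IsCompact K ∧ ∀ x : X γ, ∃ g : G α β, g • x ∈ K := by
  have iso : ∀ g : G α β, Isometry fun x : X γ => g • x := fun g => by
    obtain ⟨w, -, e⟩ := G_red g
    rw [funext (h g w e)]
    exact ph_iso w
  have := proper h1
  refine ⟨⟨iso⟩, ⟨fun {K L} hK hL => ?_⟩, Metric.closedBall (vx γ []) M,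
    isCompact_closedBall _ _, fun x => ?_⟩
  · obtain ⟨R, hR⟩ := (hK.union hL).isBounded.subset_closedBall (vx γ [])
    obtain ⟨N, hN⟩ := exists_nat_ge (4 * R + 1)
    refine ((List.finite_length_le (Fin 3) N).image
      fun w => (⟨(ph α w, ph β w), w, rfl⟩ : G α β)).subset ?_
    rintro g ⟨_, ⟨x, x1, rfl⟩, x2⟩
    obtain ⟨w, w1, e⟩ := G_red g
    refine ⟨w, ?_, Subtype.ext e.symm⟩
    have c1 := hR (Or.inl x1)
    have c2 := hR (Or.inr x2)
    have c3 := (iso g).dist_eq (vx γ []) x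
    have c4 := dist_triangle (g • vx γ []) (g • x) (vx γ [])
    have c5 := len_le h1 w1
    rw [Metric.mem_closedBall] at c1 c2
    rw [c3, h g w e, ph_root w1, vx, dist_root (ok_vx w1), dist_comm _ x] at c4
    have : (w.length : ℝ) ≤ N := by linarith
    exact_mod_cast this
  · obtain ⟨u, u1, u2⟩ := near hM x
    refine ⟨(⟨(ph α u, ph β u), u, rfl⟩ : G α β)⁻¹, ?_⟩
    rw [Metric.mem_closedBall, ← (iso ⟨(ph α u, ph β u), u, rfl⟩).dist_eq, smul_inv_smul,
      h _ u rfl, ph_root u1, dist_comm]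
    exact u2

end Pool.Agent.H.MP_77f213_al
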