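import Pool.Agent.H.MP_77f213_al.B

set_option autoImplicit false

namespace Pool.Agent.H.MP_77f213_al

lemma qi {I X Y : Type} [MetricSpace X] [MetricSpace Y] (a : I → X) (b : I → Y) {L c : ℝ}
    (hL : 1 ≤ L) (h : ∀ i j, dist (a i) (a j) / L - c ≤ dist (b i) (b j) ∧
      dist (b i) (b j) ≤ L * dist (a i) (a j) + c)
    (ha : ∀ x, ∃ i, dist (a i) x ≤ c) (hb : ∀ y, ∃ i, dist (b i) y ≤ c) :
    ∃ f : X → Y, ∃ c : ℝ, (∀ x y, dist x y / L - c ≤ dist (f x) (f y) ∧
      dist (f x) (f y) ≤ L * dist x y + c) ∧ ∀ z, ∃ x, dist (f x) z ≤ c := by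
  choose g hg using ha
  refine ⟨fun x => b (g x), 2 * L * c + 3 * c, fun x y => ?_, fun z => ?_⟩
  · have c0 : 0 ≤ c := dist_nonneg.trans (hg x)
    have c1 := dist_triangle4 x (a (g x)) (a (g y)) y
    have c2 := dist_triangle4 (a (g x)) x y (a (g y))
    rw [dist_comm x (a _)] at c1
    rw [dist_comm y (a _)] at c2
    have c3 := hg x
    have c4 := hg y
    obtain ⟨c5, c6⟩ := h (g x) (g y)
    refine ⟨?_, by nlinarith⟩
    have c7 : dist x y / L ≤ dist (a (g x)) (a (g y)) / L + 2 * c := by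
      rw [div_add' _ _ _ (by positivity)]
      exact div_le_div_of_nonneg_right (by nlinarith) (by positivity)
    nlinarith
  · obtain ⟨i, hi⟩ := hb z
    have c0 : 0 ≤ c := dist_nonneg.trans hi
    refine ⟨a i, (dist_triangle _ (b i) _).trans ?_⟩
    have c1 := (h (g (a i)) i).2
    have c2 := hg (a i)
    nlinarith

def flat {p : ℕ} (x : List (Fin p → Fin 2)) : List (Fin 2) := x.flatMap List.ofFn

lemma flat_cons {p : ℕ} (a : Fin p → Fin 2) (x : List (Fin p → Fin 2)) :
    flat (a :: x) = List.ofFn a ++ flat x := by simp [flat]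

lemma flat_len {p : ℕ} (x : List (Fin p → Fin 2)) : ((flat x).length : ℝ) = p * x.length := by
  induction x with
  | nil => simp [flat]
  | cons a x ih => simp [flat_cons, ih]; ring

lemma flat_td {p : ℕ} (x y : List (Fin p → Fin 2)) :
    |td (flat x) (flat y) - p * td x y| ≤ 2 * p := by
  have p0 : (0 : ℝ) ≤ p := p.cast_nonneg
  induction x generalizing y with
  | nil => simp [td, flat_len, show flat ([] : List (Fin p → Fin 2)) = [] from rfl]
  | cons a x ih =>
    cases y with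
    | nil => simp [td, flat_len, show flat ([] : List (Fin p → Fin 2)) = [] from rfl]
    | cons b y =>
      by_cases e : a = b
      · subst e
        rw [flat_cons, flat_cons, td_append, show td (a :: x) (a :: y) = td x y from
          td_append [a] x y]
        exact ih y
      · have c1 := cp_nonneg one0 (flat (a :: x)) (flat (b :: y))
        have c2 : cp (one _) (flat (a :: x)) (flat (b :: y)) ≤ p := by
          rw [flat_cons, flat_cons]
          simpa using cp_ne one0 (z := List.ofFn a) (z' := List.ofFn b) (by simp)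
            (fun h => e (List.ofFn_injective h)) (flat x) (flat y)
        rw [td, td, cp_cons, if_neg e, flat_len, flat_len, abs_le]
        constructor <;> nlinarith

lemma flat_dense {p : ℕ} (hp : 1 ≤ p) (u : List (Fin 2)) :
    ∃ x : List (Fin p → Fin 2), td (flat x) u ≤ p := by
  induction hn : u.length using Nat.strong_induction_on generalizing u with
  | _ k ih =>
    by_cases c : u.length ≤ p
    · exact ⟨[], by simpa [td, flat] using c⟩
    · obtain ⟨x, hx⟩ := ih _ (by simp; omega) (u.drop p) rfl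
      have e : ∀ z : List (Fin 2), z.length = p → ∃ a : Fin p → Fin 2, List.ofFn a = z := by
        rintro z rfl
        exact ⟨z.get, List.ofFn_get z⟩
      obtain ⟨a, ha⟩ := e (u.take p) (by simp; omega)
      refine ⟨a :: x, ?_⟩
      have e2 := td_append (u.take p) (flat x) (u.drop p)
      rw [List.take_append_drop] at e2
      rwa [flat_cons, ha, e2]

section code
variable {B : Type} [DecidableEq B] {α : Fin 3 → ℝ} [h0 : Fact (∀ i, 0 ≤ α i)] {e : ℝ}

omit h0 in
lemma code (d : List B → List (Fin 3)) (z : B) (h1 : ∀ y, rd (1 :: d y))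
    (h2 : ∀ y, wt α (d y) = e * y.length)
    (h3 : ∀ x y, cp α (d x) (d y) = e * cp (one B) x y) (h4 : α 1 = e) (h5 : 0 ≤ e)
    (o : B) (ho : o ≠ z) :
    ∃ c : List B → List (Fin 3), (∀ y, rd (c y)) ∧ (∀ y, c (z :: y) = d y) ∧
      (∀ y, c (o :: y) = 1 :: d y) ∧ ∀ x y, (∀ i ∈ x.head?, i = z ∨ i = o) →
        (∀ i ∈ y.head?, i = z ∨ i = o) →
        |wt α (c x) + wt α (c y) - 2 * cp α (c x) (c y) - e * td x y| ≤ e := by
  let c : List B → List (Fin 3) := fun x => x.rec [] fun i y _ => if i = z then d y else 1 :: d y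
  have c0 : c [] = [] := rfl
  have c1 : ∀ y, c (z :: y) = d y := fun y => if_pos rfl
  have c2 : ∀ y, c (o :: y) = 1 :: d y := fun y => if_neg ho
  refine ⟨c, ?_, c1, c2, ?_⟩
  · rintro (_ | ⟨i, y⟩)
    · trivial
    · show rd (if i = z then d y else 1 :: d y)
      split_ifs
      · exact (h1 y).2
      · exact h1 y
  · rintro (_ | ⟨i, x⟩) (_ | ⟨j, y⟩) hx hy
    · simp [c0, td, h5]
    · rcases hy j rfl with rfl | rfl <;> rw [abs_le] <;> simp [c0, c1, c2, td, h2, h4] <;>
        constructor <;> linarith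
    · rcases hx i rfl with rfl | rfl <;> rw [abs_le] <;> simp [c0, c1, c2, td, h2, h4] <;>
        constructor <;> linarith
    · rcases hx i rfl with rfl | rfl <;> rcases hy j rfl with rfl | rfl <;> rw [abs_le] <;>
        simp only [c1, c2, td, h2, h3, h4, cp_same, wt_cons, List.length_cons, one,
          cp_z (h1 _).1, cp_z' (h1 _).1, cp_cons, ho, ho.symm, if_false] <;>
        push_cast <;> constructor <;> linarith

end code

def a0 : Fin 3 → ℝ := fun _ => 1

noncomputable def a1 : Fin 3 → ℝ := fun i => if i = 0 then 0 else el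

instance : Fact (∀ i, 0 ≤ a0 i) := ⟨fun _ => zero_le_one⟩

instance : Fact (∀ i, 0 ≤ a1 i) := ⟨fun i => by
  unfold a1; split_ifs <;> linarith [el1]⟩

def nx (l : Fin 3) (d : Fin 2) : Fin 3 := if d = 0 then l + 1 else l + 2

def d0 : List (Fin 2) → Fin 3 → List (Fin 3)
  | [], _ => []
  | d :: y, l => nx l d :: d0 y (nx l d)

lemma d0_rd (y : List (Fin 2)) (l : Fin 3) : rd (l :: d0 y l) := by
  induction y generalizing l with
  | nil => exact ⟨by simp [d0], trivial⟩
  | cons d y ih =>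
    refine ⟨?_, ih _⟩
    have : ∀ l d, nx l d ≠ l := by decide
    simpa [d0] using this l d

lemma d0_wt (y : List (Fin 2)) (l : Fin 3) : wt a0 (d0 y l) = 1 * y.length := by
  induction y generalizing l with
  | nil => simp [d0]
  | cons d y ih => simp [d0, ih, a0, add_comm]

lemma d0_cp (x y : List (Fin 2)) (l : Fin 3) :
    cp a0 (d0 x l) (d0 y l) = 1 * cp (one _) x y := by
  induction x generalizing y l with
  | nil => simp [d0]
  | cons d x ih =>
    cases y with
    | nil => simp [d0]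
    | cons d' y =>
      by_cases e : d = d'
      · subst e; simp [d0, ih, a0, one]
      · have : ∀ l d d', d ≠ d' → nx l d ≠ nx l d' := by decide
        simp [d0, cp_cons, e, this l d d' e]

lemma d0_surj (w : List (Fin 3)) (l : Fin 3) (h : rd (l :: w)) : ∃ y, d0 y l = w := by
  induction w generalizing l with
  | nil => exact ⟨[], rfl⟩
  | cons i w ih =>
    have : ∀ l i, i ≠ l → ∃ d, nx l d = i := by decide
    obtain ⟨d, rfl⟩ := this l i (by simpa using h.1)
    obtain ⟨y, rfl⟩ := ih _ h.2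
    exact ⟨d :: y, rfl⟩

lemma code0 : ∃ c : List (Fin 2) → X a0, (∀ x y, |dist (c x) (c y) - td x y| ≤ 1) ∧
    ∀ z, ∃ x, dist (c x) z ≤ 1 := by
  obtain ⟨c, c1, c2, c3, c4⟩ := code (α := a0) (fun y => d0 y 1) 0 (fun y => d0_rd y 1)
    (fun y => d0_wt y 1) (fun x y => d0_cp x y 1) rfl zero_le_one 1 (by decide)
  have all : ∀ i : Fin 2, i = 0 ∨ i = 1 := by decide
  refine ⟨fun x => vx a0 (c x), fun x y => ?_, fun z => ?_⟩
  · rw [dist_vx (c1 x) (c1 y)]
    simpa using c4 x y (fun i _ => all i) fun i _ => all i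
  · obtain ⟨u, u1, u2⟩ := near (α := a0) (M := 1) (fun _ => le_rfl) z
    by_cases h : u.head? = some 1
    · obtain ⟨t, rfl⟩ := List.head?_eq_some_iff.1 h
      obtain ⟨y, rfl⟩ := d0_surj t 1 u1
      exact ⟨1 :: y, by dsimp only; rwa [c3]⟩
    · obtain ⟨y, rfl⟩ := d0_surj u 1 ⟨h, u1⟩
      exact ⟨0 :: y, by dsimp only; rwa [c2]⟩

def ny (l d : Fin 3) : Fin 3 := if d = 0 then -l else d

def d1 : List (Fin 3) → Fin 3 → List (Fin 3)
  | [], _ => []
  | d :: y, l => if d = 0 then ny l d :: d1 y (ny l d) else 0 :: ny l d :: d1 y (ny l d)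

lemma ny0 : ∀ l d : Fin 3, l ≠ 0 → ny l d ≠ 0 := by decide

lemma d1_rd (y : List (Fin 3)) (l : Fin 3) (h : l ≠ 0) : rd (l :: d1 y l) := by
  induction y generalizing l with
  | nil => exact ⟨by simp [d1], trivial⟩
  | cons d y ih =>
    rw [d1]
    split_ifs with e
    · subst e
      have : ∀ l : Fin 3, l ≠ 0 → ny l 0 ≠ l := by decide
      exact ⟨by simpa using this l h, ih _ (ny0 _ _ h)⟩
    · exact ⟨by simpa using h.symm, by simpa using ny0 l d h, ih _ (ny0 _ _ h)⟩

lemma d1_wt (y : List (Fin 3)) (l : Fin 3) (h : l ≠ 0) : wt a1 (d1 y l) = el * y.length := by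
  induction y generalizing l with
  | nil => simp [d1]
  | cons d y ih =>
    rw [d1]
    split_ifs <;> simp [ih _ (ny0 l d h), a1, ny0 l d h] <;> ring

lemma d1_cp (x y : List (Fin 3)) (l : Fin 3) (h : l ≠ 0) :
    cp a1 (d1 x l) (d1 y l) = el * cp (one _) x y := by
  induction x generalizing y l with
  | nil => simp [d1]
  | cons d x ih =>
    cases y with
    | nil => simp [d1]
    | cons d' y =>
      rw [d1, d1]
      by_cases e : d = d'
      · subst e
        split_ifs <;> simp [ih _ _ (ny0 l d h), a1, ny0 l d h, one] <;> ring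
      · split_ifs with a b b
        · exact absurd (a.trans b.symm) e
        · simp [cp_cons, e, ny0 l d h]
        · simp [cp_cons, e, (ny0 l d' h).symm]
        · simp [cp_cons, e, ny, a, b, a1]

lemma d1_surj : ∀ (w : List (Fin 3)) (l : Fin 3), l ≠ 0 → rd (l :: w) →
    ∃ y z, d1 y l ++ z = w ∧ wt a1 z = 0
  | [], _, _, _ => ⟨[], [], rfl, rfl⟩
  | [0], _, _, _ => ⟨[], [0], rfl, by simp [a1]⟩
  | 0 :: j :: w, l, _, h => by
    have j0 : j ≠ 0 := by simpa using h.2.1
    obtain ⟨y, z, rfl, c⟩ := d1_surj w j j0 h.2.2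
    exact ⟨j :: y, z, by simp [d1, ny, j0], c⟩
  | 1 :: w, l, h1, h => by
    have : ∀ l : Fin 3, l ≠ 0 → 1 ≠ l → -l = 1 := by decide
    have e := this l h1 (by simpa using h.1)
    obtain ⟨y, z, rfl, c⟩ := d1_surj w 1 (by decide) h.2
    exact ⟨0 :: y, z, by simp [d1, ny, e], c⟩
  | 2 :: w, l, h1, h => by
    have : ∀ l : Fin 3, l ≠ 0 → 2 ≠ l → -l = 2 := by decide
    have e := this l h1 (by simpa using h.1)
    obtain ⟨y, z, rfl, c⟩ := d1_surj w 2 (by decide) h.2
    exact ⟨0 :: y, z, by simp [d1, ny, e], c⟩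

lemma a1_le (i : Fin 3) : a1 i ≤ el := by
  unfold a1; split_ifs <;> linarith [el1]

lemma code1 : ∃ c : List (Fin 3) → X a1, (∀ x y, (∀ i ∈ x.head?, i ∈ ({0, 1} : Finset _)) →
    (∀ i ∈ y.head?, i ∈ ({0, 1} : Finset _)) → |dist (c x) (c y) - el * td x y| ≤ el) ∧
    ∀ z, ∃ x, (∀ i ∈ x.head?, i ∈ ({0, 1} : Finset _)) ∧ dist (c x) z ≤ el := by
  obtain ⟨c, c1, c2, c3, c4⟩ := code (α := a1) (fun y => d1 y 1) 0 (fun y => d1_rd y 1 (by decide))
    (fun y => d1_wt y 1 (by decide)) (fun x y => d1_cp x y 1 (by decide)) (by simp [a1])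
    (by linarith [el1]) 1 (by decide)
  refine ⟨fun x => vx a1 (c x), fun x y hx hy => ?_, fun z => ?_⟩
  · rw [dist_vx (c1 x) (c1 y)]
    exact c4 x y (by simpa using hx) (by simpa using hy)
  · obtain ⟨u, u1, u2⟩ := near a1_le z
    have key : ∀ v t, rd (v ++ t) → wt a1 t = 0 → vx a1 v = vx a1 (v ++ t) := fun v t a b => by
      rw [← dist_eq_zero, dist_vx (rd_pre a) a, cp_pre, wt_append, b]; ring
    by_cases h : u.head? = some 1
    · obtain ⟨t, rfl⟩ := List.head?_eq_some_iff.1 h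
      obtain ⟨y, r, rfl, r1⟩ := d1_surj t 1 (by decide) u1
      exact ⟨1 :: y, by simp, by dsimp only; rw [c3, key (1 :: _) r u1 r1]; exact u2⟩
    · obtain ⟨y, r, rfl, r1⟩ := d1_surj u 1 (by decide) ⟨h, u1⟩
      exact ⟨0 :: y, by simp, by dsimp only; rw [c2, key _ r u1 r1]; exact u2⟩

theorem yes (L : ℝ) (hL : 1 < L) : ∃ f : X a0 → X a1, ∃ c : ℝ,
    (∀ x y, dist x y / L - c ≤ dist (f x) (f y) ∧ dist (f x) (f y) ≤ L * dist x y + c) ∧
      ∀ z, ∃ x, dist (f x) z ≤ c := by
  obtain ⟨p, hp⟩ := exists_nat_ge (max 2 (L * el / (L - 1)))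
  have p2 : (2 : ℝ) ≤ p := (le_max_left _ _).trans hp
  have p3 : L * el ≤ p * (L - 1) := (div_le_iff₀ (by linarith)).1 ((le_max_right _ _).trans hp)
  have e0 := el1
  obtain ⟨F, hF⟩ := pos p (by exact_mod_cast p2)
  obtain ⟨F1, F2, F3⟩ := hF {0, 1} (by simp)
  obtain ⟨c, c1, c2⟩ := code0
  obtain ⟨d, d1, d2⟩ := code1
  refine qi (fun x => c (flat x)) (fun x => d (F {0, 1} x)) (c := (L + 1) * (4 * p + 4 * el))
    hL.le (fun x y => ?_) (fun z => ?_) fun z => ?_
  · have f1 := abs_le.1 (c1 (flat x) (flat y))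
    have f2 := abs_le.1 (flat_td x y)
    have f3 := abs_le.1 (d1 _ _ (F1 x) (F1 y))
    have f4 := abs_le.1 (F2 x y)
    have f5 := td_nonneg x y
    constructor
    · rw [sub_le_iff_le_add, div_le_iff₀ (by linarith)]
      have f6 : (p - el) * td x y - (2 * p + 3 * el) ≤ dist (d (F {0, 1} x)) (d (F {0, 1} y)) := by
        linarith [f3.1, f4.1]
      have f7 := mul_le_mul_of_nonneg_right f6 (show 0 ≤ L by linarith)
      have f8 := mul_le_mul_of_nonneg_right p3 f5
      have f9 : 0 ≤ L * L * (4 * p + 4 * el) - (2 * p + 1) := by nlinarith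
      nlinarith [f1.2, f2.2]
    · have f6 : p * td x y - (2 * p + 1) ≤ dist (c (flat x)) (c (flat y)) := by
        linarith [f1.1, f2.1]
      have f7 := mul_le_mul_of_nonneg_left f6 (show 0 ≤ L by linarith)
      have f8 := mul_le_mul_of_nonneg_right (show el ≤ p * (L - 1) by nlinarith) f5
      nlinarith [f3.2, f4.2]
  · obtain ⟨u, hu⟩ := c2 z
    obtain ⟨x, hx⟩ := flat_dense (p := p) (by exact_mod_cast (show (1 : ℝ) ≤ p by linarith)) u
    refine ⟨x, (dist_triangle _ (c u) _).trans ?_⟩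
    nlinarith [(abs_le.1 (c1 (flat x) u)).2]
  · obtain ⟨u, u1, hu⟩ := d2 z
    obtain ⟨x, hx⟩ := F3 u u1
    refine ⟨x, (dist_triangle _ (d u) _).trans ?_⟩
    nlinarith [(abs_le.1 (d1 _ u (F1 x) u1)).2]

theorem no (f : X a0 → X a1) (k : ℝ)
    (h1 : ∀ x y, dist x y / 1 - k ≤ dist (f x) (f y) ∧ dist (f x) (f y) ≤ 1 * dist x y + k)
    (h2 : ∀ z, ∃ x, dist (f x) z ≤ k) : False := by
  obtain ⟨c, c1, c2⟩ := code0
  obtain ⟨d, d1, d2⟩ := code1
  choose g g1 g2 using d2
  have e0 := el1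
  simp only [div_one, one_mul] at h1
  have k0 : 0 ≤ k := by simpa using (h1 (c []) (c [])).2
  refine neg (fun x => g (f (c x))) (2 * k + 3 * el + 1) (fun x y => ?_) fun w => ?_
  · have f1 := abs_le.1 (c1 x y)
    have f2 := abs_le.1 (d1 _ _ (g1 (f (c x))) (g1 (f (c y))))
    have f3 := h1 (c x) (c y)
    have f4 := abs_le.1 (dist_dist_dist_le (d (g (f (c x)))) (d (g (f (c y)))) (f (c x)) (f (c y)))
    have f5 := g2 (f (c x))
    have f6 := g2 (f (c y))
    rw [abs_le]
    constructor <;> linarith [f1.1, f1.2, f2.1, f2.2, f3.1, f3.2, f4.1, f4.2]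
  · obtain ⟨x, hx⟩ := h2 (d (0 :: w))
    obtain ⟨u, hu⟩ := c2 x
    refine ⟨u, ?_⟩
    have f1 := (abs_le.1 (d1 _ (0 :: w) (g1 (f (c u))) (by simp))).1
    have f2 := dist_triangle4 (d (g (f (c u)))) (f (c u)) (f x) (d (0 :: w))
    have f3 := g2 (f (c u))
    have f4 := (h1 (c u) x).2
    linarith

noncomputable instance m0 : MulAction (G a0 a1) (X a0) :=
  MulAction.compHom _ ((MonoidHom.fst _ _).comp (G a0 a1).subtype)

noncomputable instance m1 : MulAction (G a0 a1) (X a1) :=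
  MulAction.compHom _ ((MonoidHom.snd _ _).comp (G a0 a1).subtype)

lemma s0 (i j : Fin 3) (_ : i ≠ j) : 1 ≤ a0 i + a0 j := by simp [a0]

lemma s1 (i j : Fin 3) (h : i ≠ j) : 1 ≤ a1 i + a1 j := by
  unfold a1
  split_ifs with a b <;> first | linarith [el1] | exact absurd (a.trans b.symm) h

lemma act0 : IsIsometricSMul (G a0 a1) (X a0) ∧ ProperlyDiscontinuousSMul (G a0 a1) (X a0) ∧
    ∃ K : Set (X a0), IsCompact K ∧ ∀ x : X a0, ∃ g : G a0 a1, g • x ∈ K :=
  act s0 (M := 1) (fun _ => le_rfl) fun g w e x => show g.1.1 x = _ by rw [e]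

lemma act1 : IsIsometricSMul (G a0 a1) (X a1) ∧ ProperlyDiscontinuousSMul (G a0 a1) (X a1) ∧
    ∃ K : Set (X a1), IsCompact K ∧ ∀ x : X a1, ∃ g : G a0 a1, g • x ∈ K :=
  act s1 a1_le fun g w e x => show g.1.2 x = _ by rw [e]

lemma fg : Group.FG (G a0 a1) := by
  let s : Fin 3 → G a0 a1 := fun i => ⟨(ph a0 [i], ph a1 [i]), [i], rfl⟩
  refine Group.fg_iff.2 ⟨Set.range s, eq_top_iff.2 ?_, Set.finite_range s⟩
  rintro ⟨_, w, rfl⟩ -
  induction w with
  | nil => exact one_mem _
  | cons i w ih =>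
    have := mul_mem (Subgroup.subset_closure (Set.mem_range_self (f := s) i)) ih
    convert this using 1
    exact Subtype.ext (Prod.ext (ph_append [i] w) (ph_append [i] w))

end Pool.Agent.H.MP_77f213_al
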